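import Pool.Agent.R550.TD.Red

/-!
# Correctness of the reduction
-/

namespace Pool.Agent.R550.TD

open Finset Pool.Agent.NPC.H632 Pool.Agent.H557R2.Tri

variable {I : List (ℕ × ℕ × ℕ) × ℕ}

theorem q_pos (hI : Pr I.1 I.2) : 0 < I.2 := by
  obtain ⟨T, hT⟩ := List.exists_mem_of_ne_nil _ hI.ne
  have := (hI.lt T hT).1
  omega

theorem length_flatMap_el (C : List (ℕ × ℕ × ℕ)) : (C.flatMap el).length = 3 * C.length := by
  induction C with
  | nil => rfl
  | cons t C ih =>
    rw [List.flatMap_cons, List.length_append, ih, List.length_cons]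
    have : (el t).length = 3 := rfl
    omega

/-- A family of triples covering all elements has at least `q` members, and it is an exact cover if
it has `q` members. -/
theorem cover_card {q : ℕ} (C : List (ℕ × ℕ × ℕ)) (h : ∀ x < 3 * q, ∃ T ∈ C, x ∈ el T) :
    q ≤ C.length ∧ (C.length = q → (C.flatMap el).Perm (List.range (3 * q))) := by
  have h1 : (List.range (3 * q)).Subperm (C.flatMap el) := by
    refine List.subperm_of_subset List.nodup_range fun x hx => ?_
    obtain ⟨T, hT, hxT⟩ := h x (List.mem_range.1 hx)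
    exact List.mem_flatMap.2 ⟨T, hT, hxT⟩
  have h2 := h1.length_le
  rw [List.length_range, length_flatMap_el] at h2
  refine ⟨by omega, fun h3 => ?_⟩
  refine (h1.perm_of_length_le ?_).symm
  rw [List.length_range, length_flatMap_el, h3]

theorem q_le (hI : Pr I.1 I.2) : I.2 ≤ I.1.length := (cover_card I.1 hI.occ).1

/-! ### The sub-total domination number -/

open Classical in
theorem degSeq_eq (hI : Pr I.1 I.2) : ∃ L : List ℕ,
    degSeq (graph (red I)) = List.replicate I.1.length (3 * I.1.length + 1) ++ L ∧
      ∃ a L', L = a :: L' ∧ 1 ≤ a := by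
  set G := graph (red I) with hG
  set t := I.1.length with ht
  set M1 : Multiset ℕ :=
    ((univ.filter fun v : Fin (red I).length => (v : ℕ) < t).val.map fun v => G.degree v) with hM1
  set M2 : Multiset ℕ :=
    ((univ.filter fun v : Fin (red I).length => ¬ (v : ℕ) < t).val.map fun v => G.degree v)
    with hM2
  have h1 : (univ : Finset (Fin (red I).length)).val.map (fun v => G.degree v) = M1 + M2 := by
    rw [hM1, hM2, ← Multiset.map_add, filter_val, filter_val, Multiset.filter_add_not]
  have h2 : M1 = Multiset.replicate t (3 * t + 1) := by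
    rw [Multiset.eq_replicate]
    constructor
    · rw [hM1, Multiset.card_map]
      have h3 := card_fin (red I).length (fun v => v < t)
      have h4 : ((range (red I).length).filter fun v => v < t) = range t := by
        ext v
        rw [mem_filter, mem_range, mem_range, red_length]
        omega
      rw [h4, card_range] at h3
      exact h3
    · intro b hb
      obtain ⟨v, hv, rfl⟩ := Multiset.mem_map.1 hb
      have hv' : (v : ℕ) < t := by
        have := (mem_filter (s := (univ : Finset (Fin (red I).length)))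
          (p := fun v : Fin (red I).length => (v : ℕ) < t)).1 hv
        exact this.2
      exact degree_triple hI hv'
  have h5 : ∀ b ∈ M2, b ≤ t := by
    intro b hb
    obtain ⟨v, hv, rfl⟩ := Multiset.mem_map.1 hb
    have hv' : ¬ (v : ℕ) < t := by
      have := (mem_filter (s := (univ : Finset (Fin (red I).length)))
        (p := fun v : Fin (red I).length => ¬ (v : ℕ) < t)).1 hv
      exact this.2
    exact degree_other (by omega)
  have h6 : ∃ d ∈ M2, 1 ≤ d := by
    obtain ⟨c, u, hc, hcu⟩ := centre_adj hI
    refine ⟨G.degree c, ?_, ?_⟩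
    · refine Multiset.mem_map.2 ⟨c, ?_, rfl⟩
      have h7 := (mem_filter (s := (univ : Finset (Fin (red I).length)))
        (p := fun v : Fin (red I).length => ¬ (v : ℕ) < t) (a := c)).2 ⟨mem_univ _, by omega⟩
      exact h7
    · exact (SimpleGraph.degree_pos_iff_exists_adj G c).2 ⟨u, hcu⟩
  refine ⟨M2.sort (· ≥ ·), ?_, ?_⟩
  · unfold degSeq
    have h7 : (M1 + M2).sort (· ≥ ·) = List.replicate t (3 * t + 1) ++ M2.sort (· ≥ ·) := by
      refine List.Perm.eq_of_pairwise' (r := (· ≥ ·)) (Multiset.pairwise_sort _ _) ?_ ?_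
      · rw [List.pairwise_append]
        refine ⟨List.pairwise_replicate.2 (Or.inr (le_refl _)), Multiset.pairwise_sort _ _, ?_⟩
        intro a ha b hb
        have h8 := h5 b ((Multiset.mem_sort _).1 hb)
        rw [List.mem_replicate] at ha
        rw [ha.2]
        change b ≤ 3 * t + 1
        omega
      · rw [← Multiset.coe_eq_coe, Multiset.sort_eq, ← Multiset.coe_add, Multiset.sort_eq, h2]
        rfl
    rw [← h7, ← h1]
  · obtain ⟨d, hd, hd1⟩ := h6
    have hd' : d ∈ M2.sort (· ≥ ·) := (Multiset.mem_sort _).2 hd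
    have hs : (M2.sort (· ≥ ·)).Pairwise (· ≥ ·) := Multiset.pairwise_sort _ _
    cases hL : M2.sort (· ≥ ·) with
    | nil => rw [hL] at hd'; simp at hd'
    | cons a L' =>
      refine ⟨a, L', rfl, ?_⟩
      rw [hL] at hd' hs
      rcases List.mem_cons.1 hd' with h9 | h9
      · omega
      · have := (List.pairwise_cons.1 hs).1 d h9
        change d ≤ a at this
        omega

theorem subT_eq (hI : Pr I.1 I.2) : subT (graph (red I)) = I.2 + 1 := by
  obtain ⟨L, hL, a, L', hLa, ha⟩ := degSeq_eq hI
  have hq := q_le hI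
  set t := I.1.length with ht
  set q := I.2 with hqd
  have hN : Fintype.card (Fin (red I).length) = t + (1 + t * (3 * q)) := by
    rw [Fintype.card_fin, red_length]
  have hk : ∀ k ≤ t, ((degSeq (graph (red I))).take k).sum = k * (3 * t + 1) := by
    intro k hk
    rw [hL, List.take_append_of_le_length (by rw [List.length_replicate]; exact hk),
      List.take_replicate, List.sum_replicate, smul_eq_mul, min_eq_left hk]
  unfold subT
  have hmem : q + 1 ∈ {k : ℕ | Fintype.card (Fin (red I).length) ≤
      ((degSeq (graph (red I))).take k).sum} := by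
    rw [Set.mem_ofPred_eq, hN]
    by_cases h1 : q + 1 ≤ t
    · rw [hk _ h1]
      nlinarith
    · have h2 : q = t := by omega
      rw [h2, hL, hLa]
      have h3 : (List.replicate t (3 * t + 1) ++ a :: L').take (t + 1) =
          List.replicate t (3 * t + 1) ++ [a] := by
        rw [List.take_append, List.length_replicate, Nat.add_sub_cancel_left,
          List.take_of_length_le (by rw [List.length_replicate]; omega)]
        rfl
      rw [h3, List.sum_append, List.sum_replicate, smul_eq_mul, List.sum_singleton]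
      nlinarith
  refine le_antisymm (Nat.sInf_le hmem) (le_csInf ⟨_, hmem⟩ fun k hk' => ?_)
  rw [Set.mem_ofPred_eq, hN] at hk'
  by_contra hcon
  push Not at hcon
  rw [hk k (by omega)] at hk'
  have h4 : k * (3 * t + 1) ≤ q * (3 * t + 1) := Nat.mul_le_mul_right _ (by omega)
  nlinarith

/-! ### Total dominating sets -/

/-- The number of triples in a total dominating set. -/
theorem tds_cover (hI : Pr I.1 I.2) {D : Finset (Fin (red I).length)}
    (hD : TotalDominating (graph (red I)) D) :
    I.2 + 1 ≤ D.card ∧ (D.card = I.2 + 1 → X3C I) := by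
  classical
  set t := I.1.length with ht
  set U : Finset (Fin (red I).length) := D.filter fun v : Fin (red I).length => (v : ℕ) < t
    with hU
  -- the triples of the set
  have hg : ∀ v : Fin (red I).length, ∃ T : ℕ × ℕ × ℕ,
      ∀ h : (v : ℕ) < I.1.length, T = I.1[(v : ℕ)] := by
    intro v
    by_cases h : (v : ℕ) < I.1.length
    · exact ⟨I.1[(v : ℕ)], fun _ => rfl⟩
    · exact ⟨(0, 0, 0), fun h' => absurd h' h⟩
  choose g hg using hg
  have hcov : ∀ x < 3 * I.2, ∃ T ∈ U.toList.map g, x ∈ el T := by
    intro x hx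
    have hlt : t + 1 + x < (red I).length := by
      rw [red_length]
      have : 0 < I.1.length := List.length_pos_iff.2 hI.ne
      nlinarith
    obtain ⟨u, hu, huv⟩ := hD ⟨t + 1 + x, hlt⟩
    have h1 := (adj_right (by simp only; omega)).1 huv
    obtain ⟨h2, h3 | ⟨w, hw, hw2, hw3⟩⟩ := h1
    · simp only at h3
      omega
    · have h4 : w = x := by simp only at hw3; omega
      subst h4
      rw [Nat.mod_eq_of_lt hx] at hw2
      refine ⟨g u, List.mem_map_of_mem (mem_toList.2 (mem_filter.2 ⟨hu, h2⟩)), ?_⟩
      rw [hg u h2]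
      exact hw2
  obtain ⟨h1, h2⟩ := cover_card _ hcov
  rw [List.length_map, length_toList] at h1 h2
  -- a vertex of the set which is not a triple
  have hne : 0 < I.1.length := List.length_pos_iff.2 hI.ne
  obtain ⟨z, hz, hzv⟩ := hD ⟨0, by rw [red_length]; omega⟩
  have hz2 : t ≤ (z : ℕ) := edge_right ((adj_left (by simpa using hne)).1 hzv)
  have hcard : U.card + 1 ≤ D.card := by
    have h3 : insert z U ⊆ D := by
      intro v hv
      rcases mem_insert.1 hv with rfl | hv
      · exact hz
      · exact (mem_filter.1 hv).1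
    have h4 := card_le_card h3
    rw [card_insert_of_notMem (by
      rw [hU, mem_filter]
      rintro ⟨_, h5⟩
      omega)] at h4
    exact h4
  refine ⟨by omega, fun h3 => ⟨U.toList.map g, ?_, h2 (by omega)⟩⟩
  intro T hT
  obtain ⟨v, hv, rfl⟩ := List.mem_map.1 hT
  have hv' := (mem_filter.1 (mem_toList.1 hv)).2
  rw [hg v hv']
  exact List.getElem_mem _

theorem cover_tds (hI : Pr I.1 I.2) (h : X3C I) :
    ∃ D : Finset (Fin (red I).length), TotalDominating (graph (red I)) D ∧ D.card ≤ I.2 + 1 := by
  classical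
  obtain ⟨C, hC, hp⟩ := h
  have hlen : C.length = I.2 := X3C_length hp
  have hidx : ∀ T : ℕ × ℕ × ℕ, ∃ i : Fin (red I).length, T ∈ C →
      ∃ h : (i : ℕ) < I.1.length, I.1[(i : ℕ)] = T := by
    intro T
    by_cases hT : T ∈ C
    · obtain ⟨i, hi, hiT⟩ := List.mem_iff_getElem.1 (hC T hT)
      exact ⟨⟨i, by rw [red_length]; omega⟩, fun _ => ⟨hi, hiT⟩⟩
    · exact ⟨⟨0, by rw [red_length]; omega⟩, fun h => absurd h hT⟩
  choose f hf using hidx
  let c : Fin (red I).length := ⟨I.1.length, by rw [red_length]; omega⟩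
  have hq := q_pos hI
  refine ⟨insert c (C.toFinset.image f), ?_, ?_⟩
  · intro v
    have hv : (v : ℕ) < I.1.length + (1 + I.1.length * (3 * I.2)) :=
      v.2.trans_eq (red_length I)
    by_cases h1 : (v : ℕ) < I.1.length
    · exact ⟨c, mem_insert_self _ _, (adj_left h1).2 ⟨h1, Or.inl rfl⟩⟩
    · push Not at h1
      by_cases h2 : (v : ℕ) = I.1.length
      · -- the centre is dominated by a triple
        obtain ⟨T, hT⟩ : ∃ T, T ∈ C := List.exists_mem_of_length_pos (by omega)
        obtain ⟨h3, _⟩ := hf T hT
        refine ⟨f T, mem_insert_of_mem (mem_image_of_mem f (List.mem_toFinset.2 hT)), ?_⟩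
        exact (adj_right h1).2 ⟨h3, Or.inl h2⟩
      · have hx : (v - (I.1.length + 1)) % (3 * I.2) < 3 * I.2 := Nat.mod_lt _ (by omega)
        obtain ⟨T, hT, hxT⟩ := List.mem_flatMap.1 (hp.mem_iff.2 (List.mem_range.2 hx))
        obtain ⟨h3, h4⟩ := hf T hT
        refine ⟨f T, mem_insert_of_mem (mem_image_of_mem f (List.mem_toFinset.2 hT)), ?_⟩
        refine (adj_right h1).2 ⟨h3, Or.inr ⟨(v : ℕ) - (I.1.length + 1), by omega, ?_, by omega⟩⟩
        rw [h4]
        exact hxT
  · refine (card_insert_le _ _).trans ?_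
    have h5 : (C.toFinset.image f).card ≤ C.toFinset.card := card_image_le
    have h6 := C.toFinset_card_le
    omega

theorem main (hI : Pr I.1 I.2) :
    X3C I ↔ gammaT (graph (red I)) = subT (graph (red I)) := by
  rw [subT_eq hI]
  have hlow : ∀ k ∈ {k : ℕ | ∃ S : Finset (Fin (red I).length),
      TotalDominating (graph (red I)) S ∧ S.card = k}, I.2 + 1 ≤ k := by
    rintro k ⟨S, hS, rfl⟩
    exact (tds_cover hI hS).1
  constructor
  · intro h
    obtain ⟨D, hD, hDc⟩ := cover_tds hI h
    have hmem : D.card ∈ {k : ℕ | ∃ S : Finset (Fin (red I).length),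
      TotalDominating (graph (red I)) S ∧ S.card = k} := ⟨D, hD, rfl⟩
    refine le_antisymm ((Nat.sInf_le hmem).trans hDc) (le_csInf ⟨_, hmem⟩ hlow)
  · intro h
    have hne : {k : ℕ | ∃ S : Finset (Fin (red I).length),
      TotalDominating (graph (red I)) S ∧ S.card = k}.Nonempty := by
      refine ⟨_, univ, fun v => ?_, rfl⟩
      obtain ⟨u, hu⟩ := noIsolated hI v
      exact ⟨u, mem_univ _, hu⟩
    obtain ⟨S, hS, hSc⟩ := Nat.sInf_mem hne
    exact (tds_cover hI hS).2 (hSc.trans h)

end Pool.Agent.R550.TD
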