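import Mathlib

/-!
# The total domination number and the sub-total domination number
-/

namespace Pool.Agent.R550.TD

/-- The graph given by a list `A` of adjacency lists: its vertices are `0, …, n - 1`, where `n` is
the length of `A`, and two different vertices `u`, `v` are adjacent if `v` occurs in the `u`-th list
or `u` occurs in the `v`-th list. -/
def graph (A : List (List ℕ)) : SimpleGraph (Fin A.length) :=
  SimpleGraph.fromRel fun u v => (v : ℕ) ∈ A[u]

/-- `G` has no isolated vertices. -/
def NoIsolated {V : Type} (G : SimpleGraph V) : Prop := ∀ v, ∃ u, G.Adj v u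

/-- `S` is a total dominating set: every vertex has a neighbour in `S`. -/
def TotalDominating {V : Type} (G : SimpleGraph V) (S : Finset V) : Prop :=
  ∀ v, ∃ u ∈ S, G.Adj v u

/-- The total domination number `γ_t(G)`. -/
noncomputable def gammaT {V : Type} (G : SimpleGraph V) : ℕ :=
  sInf {k : ℕ | ∃ S : Finset V, TotalDominating G S ∧ S.card = k}

open Classical in
/-- The degree sequence `d_1 ≥ d_2 ≥ … ≥ d_n` in non-increasing order. -/
noncomputable def degSeq {V : Type} [Fintype V] (G : SimpleGraph V) : List ℕ :=
  ((Finset.univ : Finset V).val.map fun v => G.degree v).sort (· ≥ ·)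

/-- The sub-total domination number `sub_t(G)`: the least `k` with `d_1 + … + d_k ≥ n`. -/
noncomputable def subT {V : Type} [Fintype V] (G : SimpleGraph V) : ℕ :=
  sInf {k : ℕ | Fintype.card V ≤ ((degSeq G).take k).sum}

end Pool.Agent.R550.TD
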