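import Pool.Agent.R550.TD.Main
import Pool.Agent.H671R2.PolyAuto
import Pool.Agent.NPC.Classes

/-!
# Hardness of the equality of the two numbers
-/

namespace Pool.Agent.R550.TD

open Pool.Agent.NPC Pool.Agent.NPC.H632 Pool.Agent.H557R2.Tri

/-- The reduction, with the number `q` capped by the number of triples. -/
def redc (I : List (ℕ × ℕ × ℕ) × ℕ) : List (List ℕ) := red (I.1, min I.2 I.1.length)

theorem redc_eq {I : List (ℕ × ℕ × ℕ) × ℕ} (hI : Pr I.1 I.2) : redc I = red I := by
  unfold redc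
  rw [min_eq_left (q_le hI)]

theorem poly_redc : NPC.Poly redc := by
  unfold redc red
  have hlen : UPoly (fun I : List (ℕ × ℕ × ℕ) × ℕ => I.1.length) :=
    UPoly.length (NPC.Poly.fst NPC.Poly.id)
  have hmin : UPoly (fun I : List (ℕ × ℕ × ℕ) × ℕ => min I.2 I.1.length) :=
    UPoly.of_le (NPC.Poly.min (NPC.Poly.snd NPC.Poly.id) hlen.toPoly) hlen
      (fun I => Nat.min_le_right _ _)
  have hm : UPoly (fun I : List (ℕ × ℕ × ℕ) × ℕ => I.1.length * (3 * min I.2 I.1.length)) :=
    UPoly.mul hlen (UPoly.mul (UPoly.const 3) hmin)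
  refine NPC.Poly.append ?_ (NPC.Poly.map (F := fun _ _ => ([] : List ℕ))
    (UPoly.range (UPoly.add (UPoly.const 1) hm)) (NPC.Poly.const []))
  refine NPC.Poly.map (F := fun (I : List (ℕ × ℕ × ℕ) × ℕ) T => I.1.length ::
    (((List.range (I.1.length * (3 * min I.2 I.1.length))).filter
      fun w => decide (w % (3 * min I.2 I.1.length) ∈ el T)).map
      fun w => I.1.length + 1 + w))
    (show NPC.Poly (fun I : List (ℕ × ℕ × ℕ) × ℕ => I.1) from NPC.Poly.fst NPC.Poly.id) ?_
  have hr : NPC.Poly (fun p : (List (ℕ × ℕ × ℕ) × ℕ) × (ℕ × ℕ × ℕ) =>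
      List.range (p.1.1.length * (3 * min p.1.2 p.1.1.length))) :=
    (UPoly.range hm).comp (NPC.Poly.fst NPC.Poly.id)
  unfold el
  fun_prop

theorem hard : HardPr (fun A : List (List ℕ) => NoIsolated (graph A))
    (fun A => gammaT (graph A) = subT (graph A)) :=
  hardPr_X3Cr.trans poly_redc (fun I hI => by
    rw [redc_eq hI]
    exact noIsolated hI) (fun I hI => by
    rw [redc_eq hI]
    exact main hI)

end Pool.Agent.R550.TD
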