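import Pool.Agent.R550.TD.Defs
import Pool.Agent.R550.PW.Assign
import Pool.Agent.H557R2.Tri.Src

/-!
# The reduction from exact cover by 3-sets
-/

namespace Pool.Agent.R550.TD

open Finset Pool.Agent.NPC.H632 Pool.Agent.H557R2.Tri

/-- The adjacency lists: the vertices `0, …, t - 1` are the triples, `t` is the centre, and
`t + 1 + w` is a copy of the element `w % 3q`. -/
def red (I : List (ℕ × ℕ × ℕ) × ℕ) : List (List ℕ) :=
  (I.1.map fun T => I.1.length ::
    (((List.range (I.1.length * (3 * I.2))).filter fun w => decide (w % (3 * I.2) ∈ el T)).map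
      fun w => I.1.length + 1 + w)) ++
  (List.range (1 + I.1.length * (3 * I.2))).map fun _ => []

theorem red_length (I : List (ℕ × ℕ × ℕ) × ℕ) :
    (red I).length = I.1.length + (1 + I.1.length * (3 * I.2)) := by simp [red]

/-- The edges from the triples. -/
def Edge (I : List (ℕ × ℕ × ℕ) × ℕ) (u v : ℕ) : Prop :=
  ∃ h : u < I.1.length, v = I.1.length ∨
    ∃ w < I.1.length * (3 * I.2), w % (3 * I.2) ∈ el I.1[u] ∧ v = I.1.length + 1 + w

theorem mem_red (I : List (ℕ × ℕ × ℕ) × ℕ) (u : Fin (red I).length) (v : ℕ) :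
    v ∈ (red I)[u] ↔ Edge I u v := by
  have hu := u.2
  rw [Fin.getElem_fin]
  by_cases h : (u : ℕ) < I.1.length
  · have h1 : (red I)[(u : ℕ)] = I.1.length ::
        (((List.range (I.1.length * (3 * I.2))).filter fun w =>
          decide (w % (3 * I.2) ∈ el I.1[(u : ℕ)])).map fun w => I.1.length + 1 + w) := by
      unfold red
      rw [List.getElem_append_left (by simpa using h), List.getElem_map]
    rw [h1]
    unfold Edge
    simp only [List.mem_cons, List.mem_map, List.mem_filter, List.mem_range, decide_eq_true_eq, h,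
      exists_true_left]
    constructor
    · rintro (h2 | ⟨w, ⟨h2, h3⟩, h4⟩)
      · exact Or.inl h2
      · exact Or.inr ⟨w, h2, h3, h4.symm⟩
    · rintro (h2 | ⟨w, h2, h3, h4⟩)
      · exact Or.inl h2
      · exact Or.inr ⟨w, ⟨h2, h3⟩, h4.symm⟩
  · have h1 : (red I)[(u : ℕ)] = [] := by
      unfold red
      rw [List.getElem_append_right (by simpa using h), List.getElem_map]
    rw [h1]
    unfold Edge
    simp [h]

theorem adj_iff (I : List (ℕ × ℕ × ℕ) × ℕ) (u v : Fin (red I).length) :
    (graph (red I)).Adj u v ↔ Edge I u v ∨ Edge I v u := by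
  unfold graph
  rw [SimpleGraph.fromRel_adj, mem_red, mem_red]
  constructor
  · exact fun h => h.2
  · intro h
    refine ⟨?_, h⟩
    rintro rfl
    rcases h with ⟨h1, h2 | ⟨w, _, _, h2⟩⟩ | ⟨h1, h2 | ⟨w, _, _, h2⟩⟩ <;> omega

theorem edge_right {I : List (ℕ × ℕ × ℕ) × ℕ} {u v : ℕ} (h : Edge I u v) : I.1.length ≤ v := by
  obtain ⟨h1, h2 | ⟨w, _, _, h2⟩⟩ := h <;> omega

theorem edge_left {I : List (ℕ × ℕ × ℕ) × ℕ} {u v : ℕ} (h : Edge I u v) : u < I.1.length := h.1

theorem adj_left {I : List (ℕ × ℕ × ℕ) × ℕ} {u v : Fin (red I).length}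
    (hu : (u : ℕ) < I.1.length) : (graph (red I)).Adj u v ↔ Edge I u v := by
  rw [adj_iff]
  constructor
  · rintro (h | h)
    · exact h
    · have := edge_right h; omega
  · exact Or.inl

theorem adj_right {I : List (ℕ × ℕ × ℕ) × ℕ} {u v : Fin (red I).length}
    (hu : I.1.length ≤ (u : ℕ)) : (graph (red I)).Adj u v ↔ Edge I v u := by
  rw [adj_iff]
  constructor
  · rintro (h | h)
    · have := edge_left h; omega
    · exact h
  · exact Or.inr

/-! ### Degrees -/

theorem card_fin (N : ℕ) (P : ℕ → Prop) [DecidablePred P] :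
    (univ.filter fun v : Fin N => P v).card = ((range N).filter P).card := by
  rw [← Finset.card_map Fin.valEmbedding]
  congr 1
  ext x
  simp only [mem_map, mem_filter, mem_univ, true_and, Fin.valEmbedding_apply, mem_range]
  constructor
  · rintro ⟨v, hv, rfl⟩
    exact ⟨v.2, hv⟩
  · rintro ⟨h1, h2⟩
    exact ⟨⟨x, h1⟩, h2, rfl⟩

open Classical in
theorem degree_eq {n : ℕ} (G : SimpleGraph (Fin n)) (v : Fin n) :
    G.degree v = (univ.filter fun u : Fin n => G.Adj v u).card := by
  rw [← SimpleGraph.card_neighborFinset_eq_degree]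
  congr 1
  ext u
  simp

theorem card_el (t m a b c : ℕ) (ha : a < m) (hb : b < m) (hc : c < m) (hab : a ≠ b) (hac : a ≠ c)
    (hbc : b ≠ c) :
    ((range (t * m)).filter fun w => w % m ∈ [a, b, c]).card = 3 * t := by
  have h1 : ((range (t * m)).filter fun w => w % m ∈ [a, b, c]) =
      ((range (t * m)).filter fun w => w % m = a) ∪
        (((range (t * m)).filter fun w => w % m = b) ∪
          ((range (t * m)).filter fun w => w % m = c)) := by
    ext w
    simp only [mem_filter, mem_union, List.mem_cons, List.not_mem_nil, or_false]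
    tauto
  have hdis : ∀ x y : ℕ, x ≠ y → Disjoint ((range (t * m)).filter fun w => w % m = x)
      ((range (t * m)).filter fun w => w % m = y) := by
    intro x y hxy
    rw [disjoint_left]
    intro w hw hw'
    exact hxy ((mem_filter.1 hw).2.symm.trans (mem_filter.1 hw').2)
  rw [h1, card_union_of_disjoint (by
    rw [disjoint_union_right]
    exact ⟨hdis a b hab, hdis a c hac⟩), card_union_of_disjoint (hdis b c hbc),
    PWD.card_class m t a ha, PWD.card_class m t b hb, PWD.card_class m t c hc]
  ring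

variable {I : List (ℕ × ℕ × ℕ) × ℕ}

open Classical in
theorem degree_triple (hI : Pr I.1 I.2) {u : Fin (red I).length} (hu : (u : ℕ) < I.1.length) :
    (graph (red I)).degree u = 3 * I.1.length + 1 := by
  rw [degree_eq]
  have h1 : (univ.filter fun v : Fin (red I).length => (graph (red I)).Adj u v) =
      univ.filter fun v : Fin (red I).length => Edge I u v := by
    ext v
    simp only [mem_filter, mem_univ, true_and]
    exact adj_left hu
  rw [h1, card_fin _ (fun v => Edge I u v)]
  have hT := List.getElem_mem hu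
  obtain ⟨ha, hb, hc⟩ := hI.lt _ hT
  have h2 : ((range (red I).length).filter fun v => Edge I u v) =
      insert I.1.length (((range (I.1.length * (3 * I.2))).filter fun w =>
        w % (3 * I.2) ∈ [(I.1[(u : ℕ)]).1, (I.1[(u : ℕ)]).2.1, (I.1[(u : ℕ)]).2.2]).map
          (addLeftEmbedding (I.1.length + 1))) := by
    ext v
    simp only [mem_filter, mem_range, mem_insert, mem_map, addLeftEmbedding_apply, red_length]
    constructor
    · rintro ⟨h3, h4, h5 | ⟨w, hw, h6, h7⟩⟩
      · exact Or.inl h5
      · exact Or.inr ⟨w, ⟨hw, h6⟩, h7.symm⟩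
    · rintro (h5 | ⟨w, ⟨hw, h6⟩, h7⟩)
      · exact ⟨by omega, hu, Or.inl h5⟩
      · exact ⟨by omega, hu, Or.inr ⟨w, hw, h6, h7.symm⟩⟩
  rw [h2, card_insert_of_notMem (by
    simp only [mem_map, addLeftEmbedding_apply, not_exists, not_and]
    intro w _ h
    omega), card_map, card_el _ _ _ _ _ ha hb hc (hI.d01 _ hT _ hT) (hI.d02 _ hT _ hT)
      (hI.d12 _ hT _ hT)]

open Classical in
theorem degree_other {u : Fin (red I).length} (hu : I.1.length ≤ (u : ℕ)) :
    (graph (red I)).degree u ≤ I.1.length := by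
  rw [degree_eq]
  have h1 : (univ.filter fun v : Fin (red I).length => (graph (red I)).Adj u v) ⊆
      univ.filter fun v : Fin (red I).length => (v : ℕ) < I.1.length := by
    intro v hv
    rw [mem_filter] at hv ⊢
    exact ⟨mem_univ _, edge_left ((adj_right hu).1 hv.2)⟩
  refine (card_le_card h1).trans ?_
  rw [card_fin _ (fun v => v < I.1.length)]
  have h2 : ((range (red I).length).filter fun v => v < I.1.length) ⊆ range I.1.length := by
    intro v hv
    exact mem_range.2 (mem_filter.1 hv).2
  exact (card_le_card h2).trans (by rw [card_range])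

theorem centre_adj (hI : Pr I.1 I.2) : ∃ c u : Fin (red I).length, (c : ℕ) = I.1.length ∧
    (graph (red I)).Adj c u := by
  have hne : 0 < I.1.length := List.length_pos_iff.2 hI.ne
  refine ⟨⟨I.1.length, by rw [red_length]; omega⟩, ⟨0, by rw [red_length]; omega⟩, rfl, ?_⟩
  rw [adj_iff]
  exact Or.inr ⟨hne, Or.inl rfl⟩

theorem noIsolated (hI : Pr I.1 I.2) : NoIsolated (graph (red I)) := by
  intro v
  have hv : (v : ℕ) < I.1.length + (1 + I.1.length * (3 * I.2)) := v.2.trans_eq (red_length I)
  by_cases h1 : (v : ℕ) < I.1.length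
  · refine ⟨⟨I.1.length, by rw [red_length]; omega⟩, (adj_left h1).2 ⟨h1, Or.inl rfl⟩⟩
  · push Not at h1
    by_cases h2 : (v : ℕ) = I.1.length
    · obtain ⟨c, u, hc, hcu⟩ := centre_adj hI
      have : v = c := Fin.ext (h2.trans hc.symm)
      exact ⟨u, this ▸ hcu⟩
    · have h3 : 0 < 3 * I.2 := by
        by_contra h3
        have h4 : 3 * I.2 = 0 := by omega
        rw [h4, Nat.mul_zero] at hv
        omega
      obtain ⟨T, hT, hx⟩ := hI.occ ((v - (I.1.length + 1)) % (3 * I.2)) (Nat.mod_lt _ h3)
      obtain ⟨u, hu, rfl⟩ := List.mem_iff_getElem.1 hT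
      refine ⟨⟨u, by rw [red_length]; omega⟩, (adj_right h1).2 ⟨hu, Or.inr ⟨_, ?_, hx, ?_⟩⟩⟩
      · omega
      · omega

end Pool.Agent.R550.TD
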